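import Mathlib

/-!
# Project EC (helper870), part DEN2: the numbers of the residues (Mathlib only)
-/

set_option autoImplicit false

namespace Pool.Agent.N75.EC

open Finset Polynomial

open scoped Classical

/-- the number of the nonzero squares -/
theorem card_sq (p : ℕ) [Fact p.Prime] (hp : 5 ≤ p) :
    (univ.filter fun a : ZMod p => quadraticChar (ZMod p) a = 1).card = (p - 1) / 2 := by
  have hchar : ringChar (ZMod p) ≠ 2 := by
    rw [ZMod.ringChar_zmod_n]
    omega
  have h0 := quadraticChar_sum_zero hchar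
  have h1 : ∀ a : ZMod p, quadraticChar (ZMod p) a =
      (if quadraticChar (ZMod p) a = 1 then 1 else 0) -
      (if quadraticChar (ZMod p) a = -1 then 1 else 0) := by
    intro a
    by_cases ha : a = 0
    · rw [ha, quadraticChar_zero]
      norm_num
    · rcases quadraticChar_dichotomy ha with h | h <;> rw [h] <;> norm_num
  have h2 : ∀ a : ZMod p, (1 : ℤ) = (if a = 0 then 1 else 0) +
      (if quadraticChar (ZMod p) a = 1 then 1 else 0) +
      (if quadraticChar (ZMod p) a = -1 then 1 else 0) := by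
    intro a
    by_cases ha : a = 0
    · rw [ha, quadraticChar_zero]
      norm_num
    · rcases quadraticChar_dichotomy ha with h | h <;> rw [h, if_neg ha] <;> norm_num
  have h3 : (0 : ℤ) = ((univ.filter fun a : ZMod p => quadraticChar (ZMod p) a = 1).card : ℤ) -
      ((univ.filter fun a : ZMod p => quadraticChar (ZMod p) a = -1).card : ℤ) := by
    rw [← h0, sum_congr rfl fun a _ => h1 a, sum_sub_distrib, sum_boole, sum_boole]
  have h4 : (p : ℤ) = 1 + ((univ.filter fun a : ZMod p => quadraticChar (ZMod p) a = 1).card : ℤ) +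
      ((univ.filter fun a : ZMod p => quadraticChar (ZMod p) a = -1).card : ℤ) := by
    have h5 : ∑ a : ZMod p, (1 : ℤ) = p := by
      rw [sum_const, card_univ, ZMod.card]
      simp
    rw [← h5, sum_congr rfl fun a _ => h2 a, sum_add_distrib, sum_add_distrib, sum_boole, sum_boole,
      sum_boole, filter_eq', if_pos (mem_univ _), card_singleton]
    simp
  omega

section res

variable {p m : ℕ} [Fact p.Prime] (hm : ¬ p ∣ m)

include hm in
theorem m_ne : (m : ZMod p) ≠ 0 := by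
  rw [Ne, ZMod.natCast_eq_zero_iff]
  exact hm

theorem dvd_iff (a : ℤ) : (p : ℤ) ∣ a ↔ (a : ZMod p) = 0 :=
  (ZMod.intCast_zmod_eq_zero_iff_dvd a p).symm

include hm in
/-- the residue `u₀` with `1 + m u₀ = 0` -/
theorem dvd_u {u : ℕ} (hu : u < p) : (p : ℤ) ∣ (1 + m * u : ℤ) ↔
    u = ZMod.val (-(m : ZMod p)⁻¹) := by
  have hm0 := m_ne hm
  rw [dvd_iff]
  push_cast
  constructor
  · intro h
    have h1 : (u : ZMod p) = -(m : ZMod p)⁻¹ := by
      field_simp
      linear_combination h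
    rw [← h1, ZMod.val_cast_of_lt hu]
  · intro h
    rw [h, ZMod.natCast_zmod_val]
    field_simp
    ring

theorem dvd_v {v : ℕ} (hv : v < p) : (p : ℤ) ∣ (v : ℤ) ↔ v = 0 := by
  constructor
  · intro h
    have h1 : p ∣ v := by exact_mod_cast h
    exact Nat.eq_zero_of_dvd_of_lt h1 hv
  · rintro rfl
    simp

end res

theorem den2 : ∀ (p m : ℕ), p.Prime → 5 ≤ p → ¬ p ∣ m →
  ((range p ×ˢ range p).filter (fun t : ℕ × ℕ => (p : ℤ) ∣ (1 + m * t.1 : ℤ) - t.2 ∧
    jacobiSym (3 * (1 + m * t.1 : ℤ)) p = 1)).card = (p - 1) / 2 ∧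
  ((range p ×ˢ range p).filter (fun t : ℕ × ℕ => (p : ℤ) ∣ (1 + m * t.1 : ℤ) ∨
    (p : ℤ) ∣ (t.2 : ℤ))).card = 2 * p - 1 ∧
  ((range p ×ˢ range p).filter (fun t : ℕ × ℕ => (p : ℤ) ∣ (1 + m * t.1 : ℤ) ∧
    (p : ℤ) ∣ (t.2 : ℤ))).card = 1 := by
  intro p m hp h5 hm
  have : Fact p.Prime := ⟨hp⟩
  have hm0 := m_ne hm
  have hp0 : 0 < p := hp.pos
  set u₀ := ZMod.val (-(m : ZMod p)⁻¹) with hu₀
  have hu₀p : u₀ < p := ZMod.val_lt _
  have h30 : (3 : ZMod p) ≠ 0 := by
    have : ((3 : ℕ) : ZMod p) ≠ 0 := by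
      rw [Ne, ZMod.natCast_eq_zero_iff]
      exact fun h => absurd (Nat.le_of_dvd (by norm_num) h) (by omega)
    exact_mod_cast this
  have e1 : (range p ×ˢ range p).filter (fun t : ℕ × ℕ => (p : ℤ) ∣ (1 + m * t.1 : ℤ)) =
      {u₀} ×ˢ range p := by
    ext ⟨u, v⟩
    simp only [mem_filter, mem_product, mem_range, mem_singleton]
    constructor
    · rintro ⟨⟨h1, h2⟩, h3⟩
      exact ⟨(dvd_u hm h1).1 h3, h2⟩
    · rintro ⟨rfl, h2⟩
      exact ⟨⟨hu₀p, h2⟩, (dvd_u hm hu₀p).2 rfl⟩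
  have e2 : (range p ×ˢ range p).filter (fun t : ℕ × ℕ => (p : ℤ) ∣ (t.2 : ℤ)) =
      range p ×ˢ {0} := by
    ext ⟨u, v⟩
    simp only [mem_filter, mem_product, mem_range, mem_singleton]
    constructor
    · rintro ⟨⟨h1, h2⟩, h3⟩
      exact ⟨h1, (dvd_v h2).1 h3⟩
    · rintro ⟨h1, rfl⟩
      exact ⟨⟨h1, hp0⟩, (dvd_v hp0).2 rfl⟩
  have e3 : (range p ×ˢ range p).filter (fun t : ℕ × ℕ => (p : ℤ) ∣ (1 + m * t.1 : ℤ) ∧
      (p : ℤ) ∣ (t.2 : ℤ)) = {(u₀, 0)} := by
    rw [filter_and, e1, e2]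
    ext ⟨u, v⟩
    simp only [mem_inter, mem_product, mem_range, mem_singleton, Prod.mk.injEq]
    constructor
    · rintro ⟨⟨h1, _⟩, _, h2⟩
      exact ⟨h1, h2⟩
    · rintro ⟨rfl, rfl⟩
      exact ⟨⟨rfl, hp0⟩, hu₀p, rfl⟩
  have c3 : ((range p ×ˢ range p).filter (fun t : ℕ × ℕ => (p : ℤ) ∣ (1 + m * t.1 : ℤ) ∧
      (p : ℤ) ∣ (t.2 : ℤ))).card = 1 := by
    rw [e3, card_singleton]
  refine ⟨?_, ?_, c3⟩
  · rw [← card_sq p h5]
    refine card_bij' (fun t _ => ((3 * (1 + m * t.1 : ℤ) : ℤ) : ZMod p))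
      (fun a _ => (ZMod.val ((3⁻¹ * a - 1) * (m : ZMod p)⁻¹), ZMod.val (3⁻¹ * a))) ?_ ?_ ?_ ?_
    · rintro ⟨u, v⟩ ht
      simp only [mem_filter, mem_product, mem_range] at ht
      simp only [mem_filter, mem_univ, true_and]
      have h := ht.2.2
      rw [← jacobiSym.legendreSym.to_jacobiSym] at h
      exact h
    · intro a ha
      simp only [mem_filter, mem_univ, true_and] at ha
      simp only [mem_filter, mem_product, mem_range]
      have h1 : ((3 * (1 + m * (ZMod.val ((3⁻¹ * a - 1) * (m : ZMod p)⁻¹) : ℕ) : ℤ) : ℤ) : ZMod p) =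
          a := by
        push_cast
        rw [ZMod.natCast_zmod_val]
        field_simp
        ring
      refine ⟨⟨ZMod.val_lt _, ZMod.val_lt _⟩, ?_, ?_⟩
      · rw [dvd_iff]
        push_cast
        rw [ZMod.natCast_zmod_val, ZMod.natCast_zmod_val]
        field_simp
        ring
      · rw [← jacobiSym.legendreSym.to_jacobiSym]
        show quadraticChar (ZMod p) ((3 * (1 + m * (ZMod.val ((3⁻¹ * a - 1) * (m : ZMod p)⁻¹) : ℕ) :
          ℤ) : ℤ) : ZMod p) = 1
        rw [h1]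
        exact ha
    · rintro ⟨u, v⟩ ht
      simp only [mem_filter, mem_product, mem_range] at ht
      obtain ⟨⟨hu, hv⟩, h1, -⟩ := ht
      rw [dvd_iff] at h1
      push_cast at h1
      refine Prod.ext ?_ ?_
      · show ZMod.val _ = u
        have h2 : ((3 : ZMod p)⁻¹ * ((3 * (1 + m * u : ℤ) : ℤ) : ZMod p) - 1) * (m : ZMod p)⁻¹ =
            (u : ZMod p) := by
          push_cast
          field_simp
          ring
        rw [h2, ZMod.val_cast_of_lt hu]
      · show ZMod.val _ = v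
        have h2 : (3 : ZMod p)⁻¹ * ((3 * (1 + m * u : ℤ) : ℤ) : ZMod p) = (v : ZMod p) := by
          push_cast
          field_simp
          linear_combination h1
        rw [h2, ZMod.val_cast_of_lt hv]
    · intro a ha
      show ((3 * (1 + m * (ZMod.val ((3⁻¹ * a - 1) * (m : ZMod p)⁻¹) : ℕ) : ℤ) : ℤ) : ZMod p) = a
      push_cast
      rw [ZMod.natCast_zmod_val]
      field_simp
      ring
  · have h1 := card_union_add_card_inter
      ((range p ×ˢ range p).filter (fun t : ℕ × ℕ => (p : ℤ) ∣ (1 + m * t.1 : ℤ)))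
      ((range p ×ˢ range p).filter (fun t : ℕ × ℕ => (p : ℤ) ∣ (t.2 : ℤ)))
    rw [← filter_or, ← filter_and, c3, e1, e2, card_product, card_product, card_singleton,
      card_singleton, card_range] at h1
    omega

end Pool.Agent.N75.EC
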