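import Pool.Agent.N870.EC.Stm
import Pool.Agent.N75.EC.Den2Core

/-!
# Project EC (helper870), part DEN2
-/

set_option autoImplicit false

namespace Pool.Agent.N75.EC

theorem t_DEN2 : Pool.Agent.N870.EC.S_DEN2 := den2

end Pool.Agent.N75.EC
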